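import Pool.Agent.H12.KP.Targets4

/-!
# Board kpi_modules, module FGLIM: limits in finitely generated modules
-/

set_option autoImplicit false

namespace Pool.Agent.H39.KP

open Pool.Agent.H12.KP Polynomial TensorProduct

universe u v

theorem pf_FGLIM : S_FGLIM.{u,v} := by
  intro A M _ _ _ π hπ H hH h hh hz
  obtain ⟨n, g, hg⟩ := Submodule.fg_iff_exists_fin_generating_family.1 hH
  have hmem : ∀ x ∈ H, ∃ c : Fin n → A, ∑ i, c i • g i = x := by
    intro x hx
    rw [← hg] at hx
    exact (Submodule.mem_span_range_iff_exists_fun A).1 hx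
  have hmem' : ∀ c : Fin n → A, ∑ i, c i • g i ∈ H := by
    intro c
    rw [← hg]
    exact (Submodule.mem_span_range_iff_exists_fun A).2 ⟨c, rfl⟩
  obtain ⟨a0, ha0⟩ := hmem (h 0) (hh 0)
  have hc : ∀ k, ∃ c : Fin n → A, h (k + 1) - h k = π ^ k • ∑ i, c i • g i := by
    intro k
    obtain ⟨z, hzH, hz2⟩ := hz k
    obtain ⟨c, rfl⟩ := hmem z hzH
    exact ⟨c, hz2⟩
  choose c hc using hc
  let a : ℕ → Fin n → A := fun k i => a0 i + ∑ j ∈ Finset.range k, π ^ j * c j i
  have hstep : ∀ k i, a (k + 1) i = a k i + π ^ k * c k i := by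
    intro k i
    show a0 i + ∑ j ∈ Finset.range (k + 1), π ^ j * c j i =
      a0 i + ∑ j ∈ Finset.range k, π ^ j * c j i + π ^ k * c k i
    rw [Finset.sum_range_succ]
    ring
  have hk : ∀ k, h k = ∑ i, a k i • g i := by
    intro k
    induction k with
    | zero =>
      rw [← ha0]
      refine Finset.sum_congr rfl (fun i _ => ?_)
      show a0 i • g i = (a0 i + ∑ j ∈ Finset.range 0, π ^ j * c j i) • g i
      rw [Finset.range_zero, Finset.sum_empty, add_zero]
    | succ k ih =>
      have h1 : h (k + 1) = h k + π ^ k • ∑ i, c k i • g i := by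
        rw [← hc k]
        abel
      rw [h1, ih, Finset.smul_sum, ← Finset.sum_add_distrib]
      refine Finset.sum_congr rfl (fun i _ => ?_)
      rw [hstep, ← mul_smul, ← add_smul]
  have hx : ∀ i, ∃ x, ∀ k, π ^ k ∣ x - a k i := by
    intro i
    refine hπ (fun k => a k i) (fun k => ⟨c k i, ?_⟩)
    show a (k + 1) i - a k i = π ^ k * c k i
    rw [hstep]
    ring
  choose x hx using hx
  refine ⟨∑ i, x i • g i, hmem' x, fun k => ?_⟩
  choose d hd using fun i => hx i k
  refine ⟨∑ i, d i • g i, hmem' d, ?_⟩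
  rw [hk k, ← Finset.sum_sub_distrib, Finset.smul_sum]
  refine Finset.sum_congr rfl (fun i _ => ?_)
  rw [← sub_smul, hd i, mul_smul]

end Pool.Agent.H39.KP
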